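import Mathlib

set_option autoImplicit false

open Metric Set Filter Topology
open scoped InnerProductSpace

namespace Pool.Agent.W_MP_541d58_an

variable {E : Type*} [NormedAddCommGroup E] [InnerProductSpace ℝ E]

/-- A ball that almost touches the complement. -/
lemma touch {C : Set E} (hC : IsClosed C) {c w : E} (hc : c ∈ interior C) (hw : w ∉ interior C)
    {η : ℝ} (hη : 0 < η) :
    ∃ r : ℝ, ∃ y : E, 0 < r ∧ closedBall c r ⊆ C ∧ y ∉ C ∧ dist y c ≤ (1 + η) * r ∧
      r ≤ dist c w := by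
  have hw' : w ∈ closure Cᶜ := by
    rw [closure_compl]; exact hw
  have hne : (Cᶜ : Set E).Nonempty := closure_nonempty_iff.1 ⟨w, hw'⟩
  have hcc : c ∉ closure (Cᶜ : Set E) := by
    rw [closure_compl]; simpa using hc
  have hr : 0 < infDist c (Cᶜ : Set E) := by
    rcases (infDist_nonneg (x := c) (s := (Cᶜ : Set E))).lt_or_eq with h | h
    · exact h
    · exact absurd ((mem_closure_iff_infDist_zero hne).2 h.symm) hcc
  have hlt : infDist c (Cᶜ : Set E) < (1 + η) * infDist c (Cᶜ : Set E) := by nlinarith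
  obtain ⟨y, hy, hyd⟩ := (infDist_lt_iff hne).1 hlt
  refine ⟨infDist c (Cᶜ : Set E), y, hr, ?_, hy, ?_, ?_⟩
  · have hb : ball c (infDist c (Cᶜ : Set E)) ⊆ C := by
      intro p hp
      by_contra hpC
      have : infDist c (Cᶜ : Set E) ≤ dist c p := infDist_le_dist_of_mem hpC
      rw [mem_ball, dist_comm] at hp
      linarith
    rw [← closure_ball c hr.ne']
    exact closure_minimal hb hC
  · rw [dist_comm]; exact hyd.le
  · rw [← infDist_closure]
    exact infDist_le_dist_of_mem hw'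

/-- If the direction from `c` to `y` has large inner product with `s`, then moving back along `s`
pushes `y` into the ball. -/
lemma push {c y s : E} {r η : ℝ} (hr : 0 < r) (hη : 0 < η)
    (hη' : η ≤ 1 / (4 * (‖s‖ ^ 2 + 1)))
    (hy : r ≤ ‖y - c‖) (hy' : ‖y - c‖ ≤ (1 + η) * r) (hs : ‖y - c‖ < ⟪y - c, s⟫_ℝ) :
    ‖y - c - (r / (‖s‖ ^ 2 + 1)) • s‖ < r := by
  have hL : (0 : ℝ) < ‖s‖ ^ 2 + 1 := by positivity
  set L : ℝ := ‖s‖ ^ 2 + 1 with hLdef
  have h1 : ‖y - c - (r / L) • s‖ ^ 2 = ‖y - c‖ ^ 2 - 2 * ((r / L) * ⟪y - c, s⟫_ℝ)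
      + (r / L) ^ 2 * ‖s‖ ^ 2 := by
    rw [norm_sub_sq_real, real_inner_smul_right, norm_smul, mul_pow, Real.norm_eq_abs, sq_abs]
  have hrL : 0 < r / L := by positivity
  have h2 : (r / L) ^ 2 * ‖s‖ ^ 2 ≤ (r / L) * r := by
    have : ‖s‖ ^ 2 ≤ L := by rw [hLdef]; linarith
    calc (r / L) ^ 2 * ‖s‖ ^ 2 ≤ (r / L) ^ 2 * L := by gcongr
      _ = (r / L) * r := by field_simp
  have h3 : (r / L) * r ≤ (r / L) * ‖y - c‖ := by gcongr
  have h4 : (r / L) * ‖y - c‖ < (r / L) * ⟪y - c, s⟫_ℝ := by gcongr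
  have h5 : ‖y - c‖ ^ 2 ≤ ((1 + η) * r) ^ 2 := by gcongr
  have hL1 : 1 ≤ L := by rw [hLdef]; nlinarith [sq_nonneg ‖s‖]
  have h6 : η * L ≤ 1 / 4 := by
    calc η * L ≤ (1 / (4 * L)) * L := by gcongr
      _ = 1 / 4 := by field_simp
  have h7 : η ≤ 1 / 4 := by nlinarith
  have h8 : ‖y - c - (r / L) • s‖ ^ 2 < r ^ 2 := by
    rw [h1]
    have e : (r / L) * r = r ^ 2 / L := by ring
    have h9 : (2 * η + η ^ 2) * r ^ 2 < r ^ 2 / L := by
      rw [lt_div_iff₀ hL]
      have : (2 * η + η ^ 2) * L < 1 := by nlinarith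
      nlinarith [sq_nonneg r, mul_pos hr hr]
    nlinarith
  exact lt_of_pow_lt_pow_left₀ 2 hr.le h8

/-- A family of pairwise disjoint closed convex sets with nonempty interior covering the space. -/
structure IsDisjTiling (T : Set (Set E)) : Prop where
  closed : ∀ C ∈ T, IsClosed C
  conv : ∀ C ∈ T, Convex ℝ C
  int : ∀ C ∈ T, (interior C).Nonempty
  disj : ∀ C ∈ T, ∀ D ∈ T, ∀ x, x ∈ C → x ∈ D → C = D
  cover : ∀ x : E, ∃ C ∈ T, x ∈ C

/-- The points which are not interior to their tile. -/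
def Skel (T : Set (Set E)) : Set E := {z | ∃ C ∈ T, z ∈ C ∧ z ∉ interior C}

omit [InnerProductSpace ℝ E] in
lemma exists_frontier_pt {S D : Set E} (hS : IsPreconnected S) (hD : IsClosed D)
    (h1 : (S ∩ D).Nonempty) (h2 : (S ∩ Dᶜ).Nonempty) : ∃ w ∈ S, w ∈ D ∧ w ∉ interior D := by
  by_contra hcon
  push Not at hcon
  obtain ⟨p, hpS, hpD⟩ := h1
  have := hS (interior D) Dᶜ isOpen_interior hD.isOpen_compl
    (by
      intro x hx
      by_cases hxD : x ∈ D
      · exact Or.inl (hcon x hx hxD)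
      · exact Or.inr hxD)
    ⟨p, hpS, hcon p hpS hpD⟩ h2
  obtain ⟨q, _, hq1, hq2⟩ := this
  exact hq2 (interior_subset hq1)

lemma skel_near {T : Set (Set E)} (hT : IsDisjTiling T) {C : Set E} (hC : C ∈ T) {c y : E}
    (hc : c ∈ C) (hy : y ∉ C) : ∃ z ∈ Skel T, z ∈ segment ℝ c y ∧ z ∉ C := by
  obtain ⟨D, hD, hyD⟩ := hT.cover y
  have hcD : c ∉ D := by
    intro h
    have := hT.disj C hC D hD c hc h
    rw [this] at hy
    exact hy hyD
  have hpc : IsPreconnected (segment ℝ c y) := (convex_segment c y).isPreconnected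
  obtain ⟨z, hz, hzD, hzi⟩ := exists_frontier_pt hpc (hT.closed D hD)
    ⟨y, right_mem_segment ℝ c y, hyD⟩ ⟨c, left_mem_segment ℝ c y, hcD⟩
  refine ⟨z, ⟨D, hD, hzD, hzi⟩, hz, ?_⟩
  intro hzC
  have := hT.disj C hC D hD z hzC hzD
  rw [this] at hy
  exact hy hyD

lemma fin_step {T : Set (Set E)} (hT : IsDisjTiling T) {C : Set E} (hC : C ∈ T) {c y s : E}
    {r : ℝ} (hr : 0 < r) (hball : closedBall c r ⊆ C) (hy : y ∉ C)
    (hs : ⟪y - c, s⟫_ℝ ≤ ‖y - c‖) :
    ∃ z ∈ Skel T, z ∉ C ∧ dist z c ≤ dist y c ∧ ⟪z - c, s⟫_ℝ ≤ ‖z - c‖ := by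
  have hcC : c ∈ C := hball (mem_closedBall_self hr.le)
  obtain ⟨z, hz, hzs, hzC⟩ := skel_near hT hC hcC hy
  refine ⟨z, hz, hzC, ?_, ?_⟩
  · rw [segment_eq_image'] at hzs
    obtain ⟨t, ht, rfl⟩ := hzs
    simp only [dist_eq_norm, add_sub_cancel_left, norm_smul, Real.norm_eq_abs,
      abs_of_nonneg ht.1]
    exact mul_le_of_le_one_left (norm_nonneg _) ht.2
  · rw [segment_eq_image'] at hzs
    obtain ⟨t, ht, rfl⟩ := hzs
    simp only [add_sub_cancel_left, norm_smul, Real.norm_eq_abs,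
      abs_of_nonneg ht.1, real_inner_smul_left]
    exact mul_le_mul_of_nonneg_left hs ht.1

lemma skel_step {T : Set (Set E)} (hT : IsDisjTiling T) {z : E} (hz : z ∈ Skel T)
    {ρ : ℝ} (hρ : 0 < ρ) (s : E) {η : ℝ} (hη : 0 < η)
    (hη' : η ≤ 1 / (4 * (‖s‖ ^ 2 + 1))) :
    ∃ C ∈ T, ∃ c : E, ∃ r : ℝ, ∃ z' ∈ Skel T, 0 < r ∧ r < ρ ∧ closedBall c r ⊆ C ∧ z' ∉ C ∧
      dist z' c ≤ (1 + η) * r ∧ ⟪z' - c, s⟫_ℝ ≤ ‖z' - c‖ ∧ dist z' z < ρ := by
  obtain ⟨C, hC, hzC, hzi⟩ := hz
  have hL : (0 : ℝ) < ‖s‖ ^ 2 + 1 := by positivity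
  have hη1 : η ≤ 1 := by
    refine hη'.trans ?_
    rw [div_le_one (by positivity)]
    nlinarith [sq_nonneg ‖s‖]
  -- a point `c` in the interior of `C` near `z`
  have hzcl : z ∈ closure (interior C) := by
    rw [(hT.conv C hC).closure_interior_eq_closure_of_nonempty_interior (hT.int C hC)]
    exact subset_closure hzC
  obtain ⟨c, hc, hcz⟩ := Metric.mem_closure_iff.1 hzcl (ρ / 8) (by positivity)
  obtain ⟨r, y, hr, hball, hy, hyc, hrw⟩ := touch (hT.closed C hC) hc hzi hη
  have hr8 : r < ρ / 8 := by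
    rw [dist_comm] at hrw; linarith
  have hyr : r ≤ ‖y - c‖ := by
    by_contra h
    push Not at h
    exact hy (hball (by rw [mem_closedBall, dist_eq_norm]; exact h.le))
  have hyc2 : dist y c ≤ 2 * r := by nlinarith
  by_cases hs : ⟪y - c, s⟫_ℝ ≤ ‖y - c‖
  · obtain ⟨z', hz', hz'C, hd, hs'⟩ := fin_step hT hC hr hball hy hs
    refine ⟨C, hC, c, r, z', hz', hr, by linarith, hball, hz'C, hd.trans hyc, hs', ?_⟩
    have := dist_triangle z' c z
    rw [dist_comm c z] at this
    linarith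
  · push Not at hs
    -- the other case : entering the tile of `y`
    have hpush := push hr hη hη' hyr (by rwa [← dist_eq_norm]) hs
    set μ : ℝ := r / (‖s‖ ^ 2 + 1) with hμ
    have hμ0 : 0 < μ := by positivity
    obtain ⟨D, hD, hyD⟩ := hT.cover y
    have hCD : C ≠ D := by
      rintro rfl; exact hy hyD
    have hycl : y ∈ closure (interior D) := by
      rw [(hT.conv D hD).closure_interior_eq_closure_of_nonempty_interior (hT.int D hD)]
      exact subset_closure hyD
    obtain ⟨c', hc', hc'y⟩ := Metric.mem_closure_iff.1 hycl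
      (min (ρ / 8) (r - ‖y - c - μ • s‖)) (by
        apply lt_min (by positivity); linarith)
    have hc'y1 : dist y c' < ρ / 8 := lt_of_lt_of_le hc'y (min_le_left _ _)
    have hc'y2 : dist y c' < r - ‖y - c - μ • s‖ := lt_of_lt_of_le hc'y (min_le_right _ _)
    -- the point `a = c' - μ s` lies in `C`
    have haC : c' - μ • s ∈ closedBall c r := by
      rw [mem_closedBall, dist_eq_norm]
      have e : c' - μ • s - c = (c' - y) + (y - c - μ • s) := by abel
      rw [e]
      refine (norm_add_le _ _).trans ?_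
      rw [dist_comm, dist_eq_norm] at hc'y2
      linarith
    have haD : c' - μ • s ∉ D := by
      intro h
      exact hCD (hT.disj C hC D hD _ (hball haC) h)
    have hpc : IsPreconnected (segment ℝ (c' - μ • s) c') := (convex_segment _ _).isPreconnected
    obtain ⟨w, hw, hwD, hwi⟩ := exists_frontier_pt hpc (hT.closed D hD)
      ⟨c', right_mem_segment ℝ _ c', interior_subset hc'⟩ ⟨_, left_mem_segment ℝ _ c', haD⟩
    -- `w` is near `z`
    have hwz : dist w z < ρ / 2 := by
      have hsub : segment ℝ (c' - μ • s) c' ⊆ ball z (ρ / 2) := by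
        apply (convex_ball z (ρ / 2)).segment_subset
        · rw [mem_ball]
          rw [mem_closedBall] at haC
          have := dist_triangle (c' - μ • s) c z
          rw [dist_comm c z] at this
          linarith
        · rw [mem_ball]
          have h1 := dist_triangle c' y z
          have h2 := dist_triangle y c z
          rw [dist_comm c' y] at h1
          rw [dist_comm c z] at h2
          linarith
      exact hsub hw
    -- write `c' = w + lam • s`
    obtain ⟨lam, hlam0, hlam⟩ : ∃ lam : ℝ, 0 < lam ∧ c' = w + lam • s := by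
      rw [segment_eq_image'] at hw
      obtain ⟨t, ht, rfl⟩ := hw
      refine ⟨(1 - t) * μ, ?_, ?_⟩
      · have ht1 : t ≠ 1 := by
          rintro rfl
          apply hwi
          simpa using hc'
        have : t < 1 := lt_of_le_of_ne ht.2 ht1
        have : 0 < 1 - t := by linarith
        positivity
      · simp only [sub_sub_cancel, mul_smul, sub_smul, one_smul]
        abel
    obtain ⟨R, hR, hRD⟩ : ∃ R : ℝ, 0 < R ∧ closedBall c' R ⊆ D := by
      obtain ⟨R, hR, h⟩ := Metric.mem_nhds_iff.1 (mem_interior_iff_mem_nhds.1 hc')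
      exact ⟨R / 2, by positivity, (closedBall_subset_ball (by linarith)).trans h⟩
    -- choose the small parameter
    set θ : ℝ := min (lam / 2) (min R (ρ / 8) / (‖s‖ + 1)) with hθ
    have hs1 : (0 : ℝ) < ‖s‖ + 1 := by positivity
    have hθ0 : 0 < θ := by
      apply lt_min (by positivity)
      apply div_pos _ hs1
      exact lt_min hR (by positivity)
    have hθ1 : θ ≤ lam / 2 := min_le_left _ _
    have hθ2 : θ * (‖s‖ + 1) ≤ min R (ρ / 8) := by
      rw [← le_div_iff₀ hs1]; exact min_le_right _ _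
    have hθs : θ * ‖s‖ ≤ min R (ρ / 8) := by nlinarith
    have hθR : θ * ‖s‖ ≤ R := hθs.trans (min_le_left _ _)
    have hθρ : θ * ‖s‖ ≤ ρ / 8 := hθs.trans (min_le_right _ _)
    have hci : w + θ • s ∈ interior D := by
      have := (hT.conv D hD).combo_self_interior_mem_interior hwD hc'
        (a := 1 - θ / lam) (b := θ / lam) (by
          rw [sub_nonneg, div_le_one hlam0]; linarith) (by positivity) (by ring)
      rw [hlam] at this
      convert this using 1
      rw [smul_add, smul_smul, div_mul_cancel₀ _ hlam0.ne', ← add_assoc, ← add_smul]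
      simp
    obtain ⟨r', y', hr', hball', hy', hyc', hrw'⟩ := touch (hT.closed D hD) hci hwi hη
    have hr's : r' ≤ θ * ‖s‖ := by
      rw [dist_eq_norm, add_sub_cancel_left, norm_smul, Real.norm_eq_abs,
        abs_of_pos hθ0] at hrw'
      exact hrw'
    have hyr' : r' ≤ ‖y' - (w + θ • s)‖ := by
      by_contra h
      push Not at h
      exact hy' (hball' (by rw [mem_closedBall, dist_eq_norm]; exact h.le))
    have hs' : ⟪y' - (w + θ • s), s⟫_ℝ ≤ ‖y' - (w + θ • s)‖ := by
      by_contra hcon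
      push Not at hcon
      have hpush' := push hr' hη hη' hyr' (by rwa [← dist_eq_norm]) hcon
      set μ' : ℝ := r' / (‖s‖ ^ 2 + 1) with hμ'
      have hμ'0 : 0 < μ' := by positivity
      set b : E := y' - (w + θ • s) - μ' • s with hb
      have hμ'θ : μ' ≤ θ := by
        rw [hμ', div_le_iff₀ hL]
        nlinarith [norm_nonneg s, sq_nonneg (‖s‖ - 1)]
      have hlθ : 0 < lam - θ := by linarith
      apply hy'
      have hmem := (hT.conv D hD) (x := w + θ • s + b)
        (hball' (by rw [mem_closedBall, dist_eq_norm, add_sub_cancel_left]; exact hpush'.le))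
        (y := c' + b)
        (hRD (by rw [mem_closedBall, dist_eq_norm, add_sub_cancel_left]; linarith))
        (a := 1 - μ' / (lam - θ)) (b := μ' / (lam - θ))
        (by rw [sub_nonneg, div_le_one hlθ]; linarith) (by positivity) (by ring)
      convert hmem using 1
      have hτ : μ' = μ' / (lam - θ) * (lam - θ) := by field_simp
      have hb' : b = y' - (w + θ • s) - (μ' / (lam - θ) * (lam - θ)) • s := by
        rw [← hτ]
      rw [hlam, hb']
      module
    obtain ⟨z', hz', hz'D, hd, hs''⟩ := fin_step hT hD hr' hball' hy' hs'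
    refine ⟨D, hD, w + θ • s, r', z', hz', hr', by linarith, hball', hz'D, hd.trans hyc', hs'', ?_⟩
    have h1 := dist_triangle z' (w + θ • s) z
    have h2 := dist_triangle (w + θ • s) w z
    have h3 : dist (w + θ • s) w = θ * ‖s‖ := by
      rw [dist_eq_norm, add_sub_cancel_left, norm_smul, Real.norm_eq_abs, abs_of_pos hθ0]
    have h4 : dist z' (w + θ • s) ≤ 2 * r' := by nlinarith
    linarith

end Pool.Agent.W_MP_541d58_an
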