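import Mathlib
import Pool.Agent.W_MP_541d58_an.Basic

set_option autoImplicit false

open Metric Set Filter Topology
open scoped InnerProductSpace

namespace Pool.Agent.W_MP_541d58_an

variable {E : Type*} [NormedAddCommGroup E] [InnerProductSpace ℝ E]

/-- The state of the recursive construction. -/
structure St (T : Set (Set E)) where
  z : E
  ρ : ℝ
  s : E
  hz : z ∈ Skel T
  hρ : 0 < ρ

/-- What holds of consecutive states. -/
def Next (T : Set (Set E)) (δ : ℝ) (a b : St T) : Prop :=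
  ∃ C ∈ T, ∃ c : E, ∃ r : ℝ, 0 < r ∧ r ≤ 1 ∧ closedBall c r ⊆ C ∧
    b.ρ ≤ a.ρ / 2 ∧ closedBall b.z b.ρ ⊆ closedBall a.z a.ρ ∧
    (∀ x ∈ closedBall b.z b.ρ, x ∉ C) ∧ b.ρ ≤ δ * r ∧ dist b.z c ≤ (1 + δ) * r ∧
    ⟪b.z - c, a.s⟫_ℝ ≤ ‖b.z - c‖ ∧ b.s = a.s + (1 / ‖b.z - c‖) • (b.z - c)

lemma exists_next {T : Set (Set E)} (hT : IsDisjTiling T) (a : St T) {δ : ℝ} (hδ : 0 < δ) :
    ∃ b : St T, Next T δ a b := by
  obtain ⟨C, hC, c, r, z', hz', hr, hrρ, hball, hz'C, hd, hs, hdz⟩ :=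
    skel_step hT a.hz (ρ := min (a.ρ / 2) 1) (lt_min (by have := a.hρ; linarith) one_pos) a.s
      (η := min δ (1 / (4 * (‖a.s‖ ^ 2 + 1)))) (lt_min hδ (by positivity)) (min_le_right _ _)
  have hρa := a.hρ
  have hCo : IsOpen Cᶜ := (hT.closed C hC).isOpen_compl
  obtain ⟨ε, hε, hεC⟩ := Metric.isOpen_iff.1 hCo z' hz'C
  have hr1 : r ≤ 1 := (hrρ.trans_le (min_le_right _ _)).le
  have hρ' : 0 < min (ε / 2) (min (δ * r) (a.ρ / 2)) := by
    apply lt_min (by positivity)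
    apply lt_min (by positivity) (by positivity)
  refine ⟨⟨z', min (ε / 2) (min (δ * r) (a.ρ / 2)), a.s + (1 / ‖z' - c‖) • (z' - c), hz', hρ'⟩,
    C, hC, c, r, hr, hr1, hball, ?_, ?_, ?_, ?_, ?_, hs, rfl⟩
  · exact (min_le_right _ _).trans (min_le_right _ _)
  · apply closedBall_subset_closedBall'
    have h1 : min (ε / 2) (min (δ * r) (a.ρ / 2)) ≤ a.ρ / 2 :=
      (min_le_right _ _).trans (min_le_right _ _)
    have h2 : dist z' a.z < a.ρ / 2 := hdz.trans_le (min_le_left _ _)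
    simp only
    linarith
  · intro x hx
    have h1 : min (ε / 2) (min (δ * r) (a.ρ / 2)) ≤ ε / 2 := min_le_left _ _
    simp only [mem_closedBall] at hx
    have : x ∈ ball z' ε := by
      rw [mem_ball]; linarith
    exact hεC this
  · exact (min_le_right _ _).trans (min_le_left _ _)
  · refine hd.trans ?_
    have : min δ (1 / (4 * (‖a.s‖ ^ 2 + 1))) ≤ δ := min_le_left _ _
    gcongr

lemma skel_nonempty {T : Set (Set E)} (hT : IsDisjTiling T) (hne : (univ : Set E) ∉ T) :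
    (Skel T).Nonempty := by
  obtain ⟨C, hC, h0⟩ := hT.cover 0
  have : C ≠ univ := by rintro rfl; exact hne hC
  obtain ⟨y, hy⟩ := (ne_univ_iff_exists_notMem C).1 this
  obtain ⟨z, hz, _⟩ := skel_near hT hC h0 hy
  exact ⟨z, hz⟩

/-- The key inequality. -/
lemma key {C D : Set E} (hDconv : Convex ℝ D) (hCD : ∀ x, x ∈ C → x ∈ D → False)
    {x v c z : E} {R r δ : ℝ} (hR : 0 < R) (hr : 0 < r) (hr1 : r ≤ 1) (hδ : 0 < δ) (hδ1 : δ ≤ 1)
    (hball : closedBall c r ⊆ C) (hx : x ∈ D) (hv : closedBall (x + v) R ⊆ D)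
    (hzc : dist z c ≤ (1 + δ ^ 2) * r) (hxz : dist x z ≤ δ ^ 2 * r)
    (hδR : δ * (4 + 2 * R + ‖v‖ ^ 2) ≤ R) :
    (R / 4) * ‖z - c‖ ≤ ⟪z - c, v⟫_ℝ := by
  by_contra hcon
  push Not at hcon
  have ht0 : 0 < δ * r := by positivity
  have ht1 : δ * r ≤ 1 := by nlinarith
  -- the shrunken ball lies in `D`
  have hsub : closedBall (x + (δ * r) • v) ((δ * r) * R) ⊆ D := by
    intro p hp
    have hq : x + v + (δ * r)⁻¹ • (p - (x + (δ * r) • v)) ∈ D := by
      apply hv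
      rw [mem_closedBall, dist_eq_norm, add_sub_cancel_left, norm_smul, norm_inv,
        Real.norm_eq_abs, abs_of_pos ht0]
      rw [mem_closedBall, dist_eq_norm] at hp
      rw [inv_mul_le_iff₀ ht0]
      exact hp
    have := hDconv hx hq (a := 1 - δ * r) (b := δ * r) (by linarith) ht0.le (by ring)
    convert this using 1
    rw [smul_add, smul_add, smul_smul, mul_inv_cancel₀ ht0.ne']
    module
  have hdisj : Disjoint (closedBall c r) (closedBall (x + (δ * r) • v) ((δ * r) * R)) := by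
    rw [Set.disjoint_left]
    intro p hp1 hp2
    exact hCD p (hball hp1) (hsub hp2)
  rw [disjoint_closedBall_closedBall_iff hr.le (by positivity)] at hdisj
  have h1 : dist c (x + (δ * r) • v) ≤ ‖z - c + (δ * r) • v‖ + δ ^ 2 * r := by
    rw [dist_comm, dist_eq_norm]
    have e : x + (δ * r) • v - c = (z - c + (δ * r) • v) + (x - z) := by abel
    rw [e]
    refine (norm_add_le _ _).trans ?_
    rw [dist_eq_norm] at hxz
    linarith
  have h2 : ‖z - c + (δ * r) • v‖ ^ 2 = ‖z - c‖ ^ 2 + 2 * ((δ * r) * ⟪z - c, v⟫_ℝ)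
      + (δ * r) ^ 2 * ‖v‖ ^ 2 := by
    rw [norm_add_sq_real, real_inner_smul_right, norm_smul, mul_pow, Real.norm_eq_abs, sq_abs]
  have h3 : r + δ * r * R - δ ^ 2 * r < ‖z - c + (δ * r) • v‖ := by linarith
  have h4 : 0 ≤ r + δ * r * R - δ ^ 2 * r := by
    have : δ ^ 2 * r ≤ r := by nlinarith [sq_nonneg δ]
    have : 0 ≤ δ * r * R := by positivity
    linarith
  have h5 : (r + δ * r * R - δ ^ 2 * r) ^ 2 < ‖z - c + (δ * r) • v‖ ^ 2 := by
    gcongr
  rw [h2] at h5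
  rw [dist_eq_norm] at hzc
  have h6 : ‖z - c‖ ^ 2 ≤ ((1 + δ ^ 2) * r) ^ 2 := by gcongr
  have h7 : ‖z - c‖ ≤ 2 * r := by nlinarith [sq_nonneg δ]
  have h8 : ⟪z - c, v⟫_ℝ ≤ R / 2 * r := by nlinarith
  have h9 : (δ * r) * ⟪z - c, v⟫_ℝ ≤ (δ * r) * (R / 2 * r) := by gcongr
  have h10 : (r + δ * r * R - δ ^ 2 * r) ^ 2 <
      ((1 + δ ^ 2) * r) ^ 2 + 2 * ((δ * r) * (R / 2 * r)) + (δ * r) ^ 2 * ‖v‖ ^ 2 := by linarith
  have h11 : r ^ 2 * δ * (R + δ * R ^ 2 - 4 * δ - 2 * δ ^ 2 * R - δ * ‖v‖ ^ 2) < 0 := by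
    nlinarith
  have h12 : 0 < r ^ 2 * δ := by positivity
  have h13 : 0 ≤ R + δ * R ^ 2 - 4 * δ - 2 * δ ^ 2 * R - δ * ‖v‖ ^ 2 := by
    have : 0 ≤ δ * R ^ 2 := by positivity
    have : δ ^ 2 * R ≤ δ * R := by nlinarith [mul_pos hδ hR]
    nlinarith
  nlinarith [mul_nonneg h12.le h13]

/-- An arithmetic fact used at the end. -/
lemma arith (A B R V : ℝ) (hR : 0 < R) (hB : 0 ≤ B) (hV : 0 ≤ V) :
    ∃ k : ℕ, 0 < A + k * R ∧ V * (B + 3 * k) < (A + k * R) ^ 2 := by
  obtain ⟨k, hk⟩ := exists_nat_gt (max (max 1 (2 * |A| / R)) (4 * (V * (B + 3)) / R ^ 2))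
  have hk1 : 1 < (k : ℝ) := (le_max_left _ _).trans_lt ((le_max_left _ _).trans_lt hk)
  have hk2 : 2 * |A| / R < (k : ℝ) := (le_max_right _ _).trans_lt ((le_max_left _ _).trans_lt hk)
  have hk3 : 4 * (V * (B + 3)) / R ^ 2 < (k : ℝ) := (le_max_right _ _).trans_lt hk
  rw [div_lt_iff₀ hR] at hk2
  rw [div_lt_iff₀ (by positivity)] at hk3
  have hA : -|A| ≤ A := neg_abs_le A
  have h1 : k * R / 2 ≤ A + k * R := by nlinarith
  have h2 : 0 < k * R / 2 := by positivity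
  refine ⟨k, by linarith, ?_⟩
  have h3 : (k * R / 2) ^ 2 ≤ (A + k * R) ^ 2 := by gcongr
  have h4 : V * (B + 3 * k) ≤ V * (B + 3) * k := by
    have : B + 3 * k ≤ (B + 3) * k := by nlinarith
    calc V * (B + 3 * k) ≤ V * ((B + 3) * k) := by gcongr
      _ = V * (B + 3) * k := by ring
  have h5 : V * (B + 3) * k < (k * R / 2) ^ 2 := by nlinarith
  linarith

/-- **Main theorem.** The only partition of a real Hilbert space into closed convex sets with
nonempty interior is the trivial one. -/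
theorem univ_mem [CompleteSpace E] {T : Set (Set E)} (hT : IsDisjTiling T) :
    (univ : Set E) ∈ T := by
  by_contra hne
  obtain ⟨z₀, hz₀⟩ := skel_nonempty hT hne
  -- the recursive construction
  let δ : ℕ → ℝ := fun n => 1 / ((n : ℝ) + 1)
  have hδ0 : ∀ n, 0 < δ n := fun n => by positivity
  have hδ1 : ∀ n, δ n ≤ 1 := fun n => by
    rw [div_le_one (by positivity)]
    have : (0 : ℝ) ≤ n := n.cast_nonneg
    linarith
  have hδlim : Tendsto δ atTop (𝓝 0) := tendsto_one_div_add_atTop_nhds_zero_nat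
  choose nxt hnxt using fun (n : ℕ) (a : St T) => exists_next hT a (δ := δ n ^ 2)
    (by have := hδ0 n; positivity)
  let st : ℕ → St T := fun n => Nat.rec ⟨z₀, 1, 0, hz₀, one_pos⟩ (fun n a => nxt n a) n
  have hst : ∀ n, Next T (δ n ^ 2) (st n) (st (n + 1)) := fun n => hnxt n (st n)
  choose C hC c r hr hr1 hball hρ hsub hnot hρδ hdist hinner hs using hst
  -- the limit point
  have hanti : Antitone fun n => closedBall (st n).z (st n).ρ := antitone_nat_of_succ_le hsub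
  have hρle : ∀ n, (st n).ρ ≤ (1 / 2) ^ n := by
    intro n
    induction n with
    | zero => simp [st]
    | succ n ih => 
      refine (hρ n).trans ?_
      rw [pow_succ]
      linarith
  have hρlim : Tendsto (fun n => (st n).ρ) atTop (𝓝 0) := by
    refine squeeze_zero (fun n => (st n).hρ.le) hρle ?_
    exact tendsto_pow_atTop_nhds_zero_of_lt_one (by norm_num) (by norm_num)
  obtain ⟨x, hx⟩ : (⋂ n, closedBall (st n).z (st n).ρ).Nonempty := by
    apply Metric.nonempty_iInter_of_nonempty_biInter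
    · exact fun n => isClosed_closedBall
    · exact fun n => isBounded_closedBall
    · intro N
      refine ⟨(st N).z, ?_⟩
      simp only [mem_iInter]
      intro n hn
      exact hanti hn (mem_closedBall_self (st N).hρ.le)
    · refine squeeze_zero (fun n => Metric.diam_nonneg) (fun n => diam_closedBall (st n).hρ.le) ?_
      simpa using hρlim.const_mul 2
  rw [mem_iInter] at hx
  -- its tile
  obtain ⟨D, hD, hxD⟩ := hT.cover x
  obtain ⟨p, hp⟩ := hT.int D hD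
  obtain ⟨R, hR, hRD⟩ : ∃ R : ℝ, 0 < R ∧ closedBall (x + (p - x)) R ⊆ D := by
    rw [add_sub_cancel]
    obtain ⟨R, hR, h⟩ := Metric.mem_nhds_iff.1 (mem_interior_iff_mem_nhds.1 hp)
    exact ⟨R / 2, by positivity, (closedBall_subset_ball (by linarith)).trans h⟩
  set v : E := p - x with hv
  -- eventually the key inequality holds
  have hev : ∀ᶠ n in atTop, δ n * (4 + 2 * R + ‖v‖ ^ 2) ≤ R := by
    have h1 : Tendsto (fun n => δ n * (4 + 2 * R + ‖v‖ ^ 2)) atTop (𝓝 0) := by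
      simpa using hδlim.mul_const (4 + 2 * R + ‖v‖ ^ 2)
    exact (h1.eventually_lt_const hR).mono fun n h => h.le
  obtain ⟨N, hN⟩ := eventually_atTop.1 hev
  have hkey : ∀ n, N ≤ n → (R / 4) * ‖(st (n + 1)).z - c n‖ ≤ ⟪(st (n + 1)).z - c n, v⟫_ℝ := by
    intro n hn
    refine key (hT.conv D hD) (C := C n) ?_ hR (hr n) (hr1 n) (hδ0 n) (hδ1 n) (hball n) hxD hRD
      (hdist n) ?_ (hN n hn)
    · intro q hq1 hq2
      have : C n = D := hT.disj _ (hC n) _ hD q hq1 hq2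
      exact hnot n x (hx (n + 1)) (this ▸ hxD)
    · exact (mem_closedBall.1 (hx (n + 1))).trans (hρδ n)
  -- the direction vectors are well defined
  have hpos : ∀ n, 0 < ‖(st (n + 1)).z - c n‖ := by
    intro n
    by_contra h
    push Not at h
    have h0 : (st (n + 1)).z = c n := by
      rw [← sub_eq_zero, ← norm_le_zero_iff]; exact h
    exact hnot n _ (mem_closedBall_self (st (n + 1)).hρ.le)
      (hball n (by rw [h0]; exact mem_closedBall_self (hr n).le))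
  have hnorm : ∀ n, ‖(st (n + 1)).s‖ ^ 2 ≤ ‖(st n).s‖ ^ 2 + 3 := by
    intro n
    rw [hs n, norm_add_sq_real, real_inner_smul_right, norm_smul, real_inner_comm]
    have h1 := hpos n
    have h2 : ‖1 / ‖(st (n + 1)).z - c n‖‖ * ‖(st (n + 1)).z - c n‖ = 1 := by
      rw [Real.norm_eq_abs, abs_of_pos (by positivity)]
      field_simp
    rw [h2]
    have h3 : 1 / ‖(st (n + 1)).z - c n‖ * ⟪(st (n + 1)).z - c n, (st n).s⟫_ℝ ≤ 1 := by
      rw [one_div, inv_mul_le_iff₀ h1, mul_one]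
      exact hinner n
    linarith
  have hinn : ∀ n, N ≤ n → ⟪(st n).s, v⟫_ℝ + R / 4 ≤ ⟪(st (n + 1)).s, v⟫_ℝ := by
    intro n hn
    rw [hs n, inner_add_left, real_inner_smul_left]
    have h1 := hpos n
    have h3 : R / 4 ≤ 1 / ‖(st (n + 1)).z - c n‖ * ⟪(st (n + 1)).z - c n, v⟫_ℝ := by
      rw [one_div, ← div_eq_inv_mul, le_div_iff₀ h1]
      exact hkey n hn
    linarith
  have hnorm' : ∀ k : ℕ, ‖(st (N + k)).s‖ ^ 2 ≤ ‖(st N).s‖ ^ 2 + 3 * k := by
    intro k
    induction k with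
    | zero => simp
    | succ k ih =>
      have := hnorm (N + k)
      rw [← add_assoc]
      push_cast
      linarith
  have hinn' : ∀ k : ℕ, ⟪(st N).s, v⟫_ℝ + k * (R / 4) ≤ ⟪(st (N + k)).s, v⟫_ℝ := by
    intro k
    induction k with
    | zero => simp
    | succ k ih =>
      have := hinn (N + k) (by omega)
      rw [← add_assoc]
      push_cast
      linarith
  obtain ⟨k, hk1, hk2⟩ := arith (⟪(st N).s, v⟫_ℝ) (‖(st N).s‖ ^ 2) (R / 4) (‖v‖ ^ 2)
    (by positivity) (by positivity) (by positivity)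
  have h1 := hinn' k
  have h2 := hnorm' k
  have h3 : ⟪(st (N + k)).s, v⟫_ℝ ≤ ‖(st (N + k)).s‖ * ‖v‖ := real_inner_le_norm _ _
  have h4 : (⟪(st N).s, v⟫_ℝ + k * (R / 4)) ^ 2 ≤ (‖(st (N + k)).s‖ * ‖v‖) ^ 2 := by
    have := h1.trans h3
    gcongr
  rw [mul_pow] at h4
  have h5 : ‖(st (N + k)).s‖ ^ 2 * ‖v‖ ^ 2 ≤ (‖(st N).s‖ ^ 2 + 3 * k) * ‖v‖ ^ 2 := by gcongr
  linarith

end Pool.Agent.W_MP_541d58_an
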